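import Pool.Agent.K9h49.EL.Hard

/-!
# MP_db9079_lc: the theory of the valued field F_p((t)) is not elementary recursive

Formulas (`Fm`), their truth (`Sat`), their codes (`Fm.code`), their free variables (`Fm.fv`), the
Kalmár elementary functions (`E3`, Grzegorczyk's class E³, with the pairing function of Mathlib) and
the towers (`tower k x`, with `k` twos over `x`) are defined in `Pool/Agent/Y924/EL/Defs.lean`.

The pairing `(x, y) ↦ x ^ p + t y ^ p` is injective if `t` is not a `p`-th power, so every element
codes functions from `{0, 1} ^ k` to the field, for each `k`. With formulas whose length depends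
only on the number of steps one gets finite linear orders with `2, 4, 16, 65536, ...` elements, for
which every function to the field is coded by an element of the field; inside such an order one can
speak about all computations whose records are small enough. Now every elementary function errs on
some sentence which says that the function errs on it.

The library `Pool/Agent/Y924/EL` of formulas and the theorems on records of computations, on the
codes of the sentences and on bounded evaluation of programs are starting files; the levels, the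
meaning of the sentences and the conclusion are in `Pool/Agent/K9h49/EL`.
-/

set_option autoImplicit false

namespace Pool.Agent.Results.MP_db9079_lc.NotElementary

open Pool.Agent.Y924.EL

/-- the valuation ring `F_p[[t]]` in `F_p((t))` -/
def ValRing (p : ℕ) : Set (LaurentSeries (ZMod p)) :=
  Set.range (algebraMap (PowerSeries (ZMod p)) (LaurentSeries (ZMod p)))

/-- the number `m` is the code of a closed formula which is true in the field `K` with the unary
predicate `P` -/
def InTh {K : Type} [Field K] (P : Set K) (m : ℕ) : Prop :=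
  ∃ ψ : Fm, ψ.code = m ∧ ψ.fv = ∅ ∧ ∀ v : ℕ → K, Sat P ψ v

/-- The theory of the field `K` with the unary predicate `P` is very complex:
1. every elementary function errs, as a decision procedure, on infinitely many sentences, even
among the sentences which do not mention `P` and have at most 64 variables;
2. if a program decides the theory then for each `k` there are infinitely many such sentences on
which its computation is not finished within the bound `tower k m`, `m` the code of the sentence;
3. if the theory is axiomatized, with an elementary proof relation `R` (`w` is a proof of the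
sentence with the code `m` iff `R (pair m w) = 0`), then for each `k` there are infinitely many such
sentences which have proofs, but none whose code is at most `tower k m`. -/
def Hard {K : Type} [Field K] (P : Set K) : Prop :=
  (∀ f : ℕ → ℕ, E3 f → ∀ n : ℕ, ∃ ψ : Fm, ψ.fv = ∅ ∧ ψ.InRing 64 ∧ n ≤ ψ.code ∧
    ¬ (InTh P ψ.code ↔ f ψ.code = 0)) ∧
  (∀ c : Nat.Partrec.Code, (∀ m : ℕ, (InTh P m → 0 ∈ c.eval m) ∧ (¬ InTh P m → 1 ∈ c.eval m)) →
    ∀ k n : ℕ, ∃ ψ : Fm, ψ.fv = ∅ ∧ ψ.InRing 64 ∧ n ≤ ψ.code ∧
      c.evaln (tower k ψ.code) ψ.code = none) ∧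
  (∀ R : ℕ → ℕ, E3 R → (∀ m : ℕ, InTh P m ↔ ∃ w, R (Nat.pair m w) = 0) →
    ∀ k n : ℕ, ∃ ψ : Fm, ψ.fv = ∅ ∧ ψ.InRing 64 ∧ n ≤ ψ.code ∧ InTh P ψ.code ∧
      ∀ w, R (Nat.pair ψ.code w) = 0 → tower k ψ.code < w)

theorem inTh_iff {K : Type} [Field K] (P : Set K) {ψ : Fm} (h : ψ.fv = ∅) :
    InTh P ψ.code ↔ ∀ v : ℕ → K, Sat P ψ v := by
  constructor
  · rintro ⟨φ, h1, -, h2⟩
    rwa [Pool.Agent.K9h49.EL.code_inj φ ψ h1] at h2
  · exact fun h1 => ⟨ψ, rfl, h, h1⟩

theorem hard (K : Type) [Field K] (p : ℕ) [Fact p.Prime] [CharP K p]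
    (hK : ∃ t : K, ∀ u : K, u ^ p ≠ t) (P : Set K) : Hard P := by
  refine ⟨fun f hf n => ?_, fun c hc k n => ?_, fun R hR hc k n => ?_⟩
  · obtain ⟨ψ, h1, h2, h3, h4⟩ := Pool.Agent.K9h49.EL.not_elementary K p hK P f hf n
    exact ⟨ψ, h1, h2, h3, by rwa [inTh_iff P h1]⟩
  · refine Pool.Agent.K9h49.EL.time_bound K p hK P c k (fun ψ h1 _ => ?_) n
    rw [← inTh_iff P h1]
    constructor
    · exact (hc ψ.code).1
    · intro h2
      by_contra h3
      have := Part.mem_unique h2 ((hc ψ.code).2 h3)
      omega
  · obtain ⟨ψ, h1, h2, h3, h4, h5⟩ := Pool.Agent.K9h49.EL.proof_bound K p hK P R hR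
      (fun ψ h1 => by rw [← inTh_iff P h1]; exact hc ψ.code) k n
    exact ⟨ψ, h1, h2, h3, (inTh_iff P h1).2 h4, h5⟩

/-- the series `t` is not a `p`-th power -/
theorem exists_not_pow (p : ℕ) [Fact p.Prime] :
    ∃ t : LaurentSeries (ZMod p), ∀ u : LaurentSeries (ZMod p), u ^ p ≠ t := by
  refine ⟨HahnSeries.single 1 1, fun u hu => ?_⟩
  have h1 : (u ^ p).order = 1 := by
    rw [hu]
    exact HahnSeries.order_single one_ne_zero
  rw [HahnSeries.order_pow, nsmul_eq_mul] at h1
  have h2 : (p : ℤ) ∣ 1 := ⟨_, h1.symm⟩
  have h3 := Int.natCast_dvd_natCast.1 (by simpa using h2 : (p : ℤ) ∣ ((1 : ℕ) : ℤ))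
  exact (Fact.out : p.Prime).one_lt.ne' (Nat.dvd_one.1 h3)

theorem result :
    -- the valued field `F_p((t))`
    (∀ (p : ℕ) [Fact p.Prime], Hard (ValRing p)) ∧
    -- in particular its theory is not elementary recursive
    (∀ (p : ℕ) [Fact p.Prime], ¬ ∃ f : ℕ → ℕ, E3 f ∧ ∀ m, InTh (ValRing p) m ↔ f m = 0) ∧
    -- every imperfect field of characteristic `p`, with any unary predicate
    ∀ (K : Type) [Field K] (p : ℕ) [Fact p.Prime] [CharP K p],
      (∃ t : K, ∀ u : K, u ^ p ≠ t) → ∀ P : Set K, Hard P := by
  have h1 : ∀ (p : ℕ) [Fact p.Prime], Hard (ValRing p) := by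
    intro p _
    haveI : CharP (LaurentSeries (ZMod p)) p :=
      charP_of_injective_algebraMap (algebraMap (ZMod p) (LaurentSeries (ZMod p))).injective p
    exact hard _ p (exists_not_pow p) _
  refine ⟨h1, ?_, fun K _ p _ _ hK P => hard K p hK P⟩
  rintro p _ ⟨f, hf, h2⟩
  obtain ⟨ψ, -, -, -, h3⟩ := (h1 p).1 f hf 0
  exact h3 (h2 _)

end Pool.Agent.Results.MP_db9079_lc.NotElementary
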