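import Pool.Agent.Results.MP_db9079_lc.UniformFiniteness
import Pool.Agent.K9h38.VL.Lin2

/-!
# MP_db9079_lc: superlinear growth of the definable sets in F_p((t)), and approximate cross-sections

Write `K` for the field `F_p((t))`, with the valuation or with any other unary predicate `P`, and
`O` for `F_p[[t]]`.  The field `K` with a predicate for the cross-section `{t ^ n}` is undecidable
(Becker, Denef, Lipshitz; Cherlin).  The cross-section has linear growth: its elements with order in
`[m, m + H)` have `H` classes modulo `t ^ (m + H) O`. Here it is shown that linear growth is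
sufficient, on finite intervals of the value group, for sets with gaps and with infinitely
many elements of each order, and in a definable family with parameters.

Theorem: either true arithmetic is reducible to the theory of `(K, P)`, or for each formula `φ` and
all `C`, `g` there is an `H0` such that for all `H ≥ H0`, for all sets `X` which are defined by `φ`
with parameters and for all `m`: if each interval of length `g` in `[m, m + H)` contains the
order of an element of `X`, then the elements of `X` with order in `[m, m + H)` are not contained in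
`C H` cosets of `t ^ (m + H) O`.

For example there are no definable families of approximate (multi-valued) cross-sections, where the
elements of each order `i` in `[m, m + H)` are in at most `C` cosets of `t ^ (m + H) O`.
For a definable subgroup `W` of the multiplicative group which has an element
of order in `[1, g]`, the group of the units of `O` in `W` has more than `C` elements modulo `t ^ H`,
where `H` depends only on the formula, `C` and `g`.  So there is no definable family which contains
angular component maps of arbitrarily high level.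

Proof: first, with `x ↦ t ^ j x`, `j < g`, one fills the gaps.  By averaging, on a shorter
interval and for most orders `i` the elements of `X` of order `i` have a bounded number of classes.
For all `n` in an interval there are orders `a`, `n - a` of this kind; with the least `a` the
products of elements of the orders `a` and `n - a` give a definable set in which all orders `n` have
boundedly many classes, modulo a high power of `t`. Then the elements `x ^ (C! / k)`, multiplied over
the `k` classes, give one-valued sections for a definable set of exponents; linear functionals on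
`K`, which are definable as in the start results, define each subset of the interval of the orders.
So all arithmetic progressions `{e + i a | i ≤ m}` are the sets of the orders in an interval of the
elements of one definable family. With progressions one defines, in the value group, the
divisibility of natural numbers, and so the multiplication; as the elements of `K` represent their
orders, true arithmetic is interpretable in `(K, P)`.
-/

set_option autoImplicit false

namespace Pool.Agent.Results.MP_db9079_lc.SuperlinearGrowth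

open Pool.Agent.Y924.EL
open Pool.Agent.Results.MP_db9079_lc.UniformFiniteness
open Function

variable {p : ℕ} [Fact p.Prime]

/-- the set `S` is contained in the union of at most `C` cosets of `t ^ r F_p[[t]]` -/
def Few (C : ℕ) (r : ℤ) (S : Set (LaurentSeries (ZMod p))) : Prop :=
  ∃ G : Finset (LaurentSeries (ZMod p)), G.card ≤ C ∧
    ∀ x ∈ S, ∃ y ∈ G, ∀ k < r, x.coeff k = y.coeff k

/-- the elements of `S` with order in the interval `[m, m + H)` -/
def Shell (m : ℤ) (H : ℕ) (S : Set (LaurentSeries (ZMod p))) : Set (LaurentSeries (ZMod p)) :=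
  {x | x ∈ S ∧ x ≠ 0 ∧ m ≤ x.order ∧ x.order < m + H}

/-- each interval of length `g` in `[m, m + H)` contains the order of an element of `S` -/
def DenseValues (g H : ℕ) (m : ℤ) (S : Set (LaurentSeries (ZMod p))) : Prop :=
  ∀ i : ℤ, m ≤ i → i + g ≤ m + H → ∃ x ∈ S, x ≠ 0 ∧ i ≤ x.order ∧ x.order < i + g

/-- the elements of the subgroup `W` of the multiplicative group of order `0` -/
def UnitsIn (W : Subgroup (LaurentSeries (ZMod p))ˣ) : Set (LaurentSeries (ZMod p)) :=
  {x | ∃ w ∈ W, (w : LaurentSeries (ZMod p)) = x ∧ x.order = 0}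

theorem main (P : Set (LaurentSeries (ZMod p))) : Arith p P ∨
    ∀ (φ : Fm) (C g : ℕ), ∃ H0 : ℕ, ∀ H : ℕ, H0 ≤ H → ∀ (v : ℕ → LaurentSeries (ZMod p)) (m : ℤ),
      DenseValues g H m (Dfn p P φ v) → ¬ Few (C * H) (m + H) (Shell m H (Dfn p P φ v)) := by
  by_cases h : ∀ (φ : Fm) (C g : ℕ), ∃ H0 : ℕ, ∀ H : ℕ, H0 ≤ H →
      ∀ (v : ℕ → LaurentSeries (ZMod p)) (m : ℤ),
      DenseValues g H m (Dfn p P φ v) → ¬ Few (C * H) (m + H) (Shell m H (Dfn p P φ v))
  · exact Or.inr h
  · left
    push Not at h
    obtain ⟨φ, C, g, h⟩ := h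
    refine Pool.Agent.K9h38.VL.arith_of_linear_inf (P := P) φ C g fun H0 => ?_
    obtain ⟨H, hH, v, m, h2, G, hG, h3⟩ := h H0
    refine ⟨H, hH, v, m, fun i hi1 hi2 => ?_, G, hG, fun x hx hx0 h4 h5 => h3 x ⟨hx, hx0, h4, h5⟩⟩
    obtain ⟨x, h6, h7, h8, h9⟩ := h2 i hi1 hi2
    exact ⟨x.order, h8, h9, x, h6, h7, rfl⟩

theorem ord_zpow (x : (LaurentSeries (ZMod p))ˣ) (n : ℤ) :
    ((x ^ n : (LaurentSeries (ZMod p))ˣ) : LaurentSeries (ZMod p)).order =
      n * (x : LaurentSeries (ZMod p)).order := by
  have h0 : ∀ k : ℕ, ((x ^ k : (LaurentSeries (ZMod p))ˣ) : LaurentSeries (ZMod p)).order =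
      k * (x : LaurentSeries (ZMod p)).order := by
    intro k
    rw [Units.val_pow_eq_pow_val, Pool.Agent.Y748.UF.ord_pow x.ne_zero]
  obtain ⟨k, rfl | rfl⟩ := n.eq_nat_or_neg
  · rw [zpow_natCast, h0]
  · have h1 : ((x ^ (-(k : ℤ)) : (LaurentSeries (ZMod p))ˣ) : LaurentSeries (ZMod p)).order +
        ((x ^ k : (LaurentSeries (ZMod p))ˣ) : LaurentSeries (ZMod p)).order = 0 := by
      rw [← Pool.Agent.Y748.UF.ord_mul (Units.ne_zero _) (Units.ne_zero _), ← Units.val_mul,
        zpow_neg, zpow_natCast, inv_mul_cancel, Units.val_one, HahnSeries.order_one]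
    rw [h0] at h1
    linarith

/-- a group with few units has few elements of each order -/
theorem few_of_group (C H : ℕ) (S : Set (LaurentSeries (ZMod p)))
    (W : Subgroup (LaurentSeries (ZMod p))ˣ) (hW : ∀ x : (LaurentSeries (ZMod p))ˣ,
      x ∈ W ↔ (x : LaurentSeries (ZMod p)) ∈ S) (hC : Few C H (UnitsIn W)) (i : ℕ) :
    ∃ G : Finset (LaurentSeries (ZMod p)), G.card ≤ C ∧ ∀ x ∈ S, x ≠ 0 → x.order = i →
      ∃ y ∈ G, ∀ k < (H : ℤ), x.coeff k = y.coeff k := by
  classical
  by_cases hne : ∃ x ∈ S, x ≠ 0 ∧ x.order = i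
  · obtain ⟨x0, hx0, hx1, hx2⟩ := hne
    obtain ⟨G, hG, h1⟩ := hC
    refine ⟨G.image fun y => x0 * y, Finset.card_image_le.trans hG, fun x h3 h4 h5 => ?_⟩
    have h6 : Units.mk0 x0 hx1 ∈ W := (hW _).2 hx0
    have h7 : Units.mk0 x h4 ∈ W := (hW _).2 h3
    have h8 : (Units.mk0 x0 hx1)⁻¹ * Units.mk0 x h4 ∈ W := W.mul_mem (W.inv_mem h6) h7
    have h9 : x0 * (x0⁻¹ * x) = x := by
      rw [← mul_assoc, mul_inv_cancel₀ hx1, one_mul]
    have h10 : x0⁻¹ * x ≠ 0 := mul_ne_zero (inv_ne_zero hx1) h4
    have h11 : (x0⁻¹ * x).order = 0 := by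
      have := Pool.Agent.Y748.UF.ord_mul hx1 h10
      rw [h9] at this
      omega
    obtain ⟨y, hy, h12⟩ := h1 (x0⁻¹ * x) ⟨_, h8, by simp, h11⟩
    refine ⟨x0 * y, Finset.mem_image_of_mem _ hy, fun k hk => ?_⟩
    have h13 : (x0 * (x0⁻¹ * x - y)).coeff k = 0 := by
      by_cases h14 : x0⁻¹ * x - y = 0
      · rw [h14, mul_zero, HahnSeries.coeff_zero]
      · refine HahnSeries.coeff_eq_zero_of_lt_order ?_
        rw [Pool.Agent.Y748.UF.ord_mul hx1 h14]
        have h15 : (H : ℤ) ≤ (x0⁻¹ * x - y).order := by
          by_contra hc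
          push Not at hc
          have h16 := h12 _ hc
          have h17 : (x0⁻¹ * x - y).coeff (x0⁻¹ * x - y).order = 0 := by
            rw [HahnSeries.coeff_sub, h16, sub_self]
          exact HahnSeries.coeff_order_eq_zero.not.2 h14 h17
        omega
    rw [mul_sub, h9, HahnSeries.coeff_sub, sub_eq_zero] at h13
    exact h13
  · exact ⟨∅, by simp, fun x hx h0 h1 => absurd ⟨x, hx, h0, h1⟩ hne⟩

theorem dense_of_group (g H : ℕ) (S : Set (LaurentSeries (ZMod p)))
    (W : Subgroup (LaurentSeries (ZMod p))ˣ) (hW : ∀ x : (LaurentSeries (ZMod p))ˣ,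
      x ∈ W ↔ (x : LaurentSeries (ZMod p)) ∈ S)
    (hg : ∃ w ∈ W, 0 < (w : LaurentSeries (ZMod p)).order ∧
      (w : LaurentSeries (ZMod p)).order ≤ g) : DenseValues g H 0 S := by
  intro i hi1 hi2
  obtain ⟨w, hw, h1, h2⟩ := hg
  set d := (w : LaurentSeries (ZMod p)).order with hd
  have h3 : 0 ≤ (i + d - 1) % d ∧ (i + d - 1) % d < d :=
    ⟨Int.emod_nonneg _ h1.ne', Int.emod_lt_of_pos _ h1⟩
  have h4 := Int.emod_add_mul_ediv (i + d - 1) d
  have h5 := ord_zpow w ((i + d - 1) / d)
  rw [← hd] at h5
  refine ⟨((w ^ ((i + d - 1) / d) : (LaurentSeries (ZMod p))ˣ) : LaurentSeries (ZMod p)),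
    (hW _).1 (W.zpow_mem hw _), Units.ne_zero _, ?_, ?_⟩
  · rw [h5]
    nlinarith
  · rw [h5]
    nlinarith

theorem result (p : ℕ) [Fact p.Prime] :
    -- the field `F_p((t))` with the valuation ring, or with any other unary predicate `P`
    ∀ P : Set (LaurentSeries (ZMod p)), Arith p P ∨
      -- definable sets with values in all intervals of length `g` have superlinear growth
      (∀ (φ : Fm) (C g : ℕ), ∃ H0 : ℕ, ∀ H : ℕ, H0 ≤ H →
        ∀ (v : ℕ → LaurentSeries (ZMod p)) (m : ℤ), DenseValues g H m (Dfn p P φ v) →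
          ¬ Few (C * H) (m + H) (Shell m H (Dfn p P φ v))) ∧
      -- definable multiplicative subgroups with an element of order in `[1, g]` have
      -- more than `C` units modulo `t ^ H`
      (∀ (φ : Fm) (C g : ℕ), ∃ H : ℕ, ∀ (v : ℕ → LaurentSeries (ZMod p))
        (W : Subgroup (LaurentSeries (ZMod p))ˣ),
        (∀ x : (LaurentSeries (ZMod p))ˣ,
          x ∈ W ↔ (x : LaurentSeries (ZMod p)) ∈ Dfn p P φ v) →
        (∃ w ∈ W, 0 < (w : LaurentSeries (ZMod p)).order ∧
          (w : LaurentSeries (ZMod p)).order ≤ g) →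
        ¬ Few C H (UnitsIn W)) := by
  classical
  intro P
  rcases main P with h | h
  · exact Or.inl h
  · refine Or.inr ⟨h, fun φ C g => ?_⟩
    obtain ⟨H, hH⟩ := h φ C g
    refine ⟨H, fun v W hW hg hC => hH H le_rfl v 0 (dense_of_group g H _ W hW hg) ?_⟩
    choose G hG hG2 using few_of_group C H _ W hW hC
    refine ⟨(Finset.range H).biUnion G, ?_, fun x hx => ?_⟩
    · refine (Finset.card_biUnion_le_card_mul _ _ C fun i _ => hG i).trans ?_
      rw [Finset.card_range, mul_comm]
    · obtain ⟨h1, h2, h3, h4⟩ := hx
      obtain ⟨i, hi⟩ := Int.eq_ofNat_of_zero_le h3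
      obtain ⟨y, hy, hxy⟩ := hG2 i x h1 h2 hi
      refine ⟨y, ?_, fun k hk => hxy k (by omega)⟩
      rw [Finset.mem_biUnion]
      exact ⟨i, Finset.mem_range.2 (by omega), hy⟩

end Pool.Agent.Results.MP_db9079_lc.SuperlinearGrowth
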