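import Pool.Agent.Results.MP_db9079_lc.UniformFiniteness
import Pool.Agent.K9h38.VL.Fam

/-!
# MP_db9079_lc: uniform growth of the definable sets in F_p((t)), or true arithmetic is reducible

Write `K` for the field `F_p((t))`, with the valuation or with any other unary predicate `P`, and
`O` for `F_p[[t]]`.  The start result `UniformFiniteness` says: either true arithmetic is reducible
to the theory of `(K, P)`, or the finite sets in a definable family have at most `N` elements, with
`N` depending only on the formula.  Infinite sets can be finite up to a given precision. Here the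
dichotomy is proved for sets which look like finite sets on a long interval of scales.

Theorem: either true arithmetic is reducible to the theory of `(K, P)`, or for each formula `φ`
there is an `N` such that for each `D` there is an `h` with the following property. Let `X` be a
set defined by `φ` with any parameters and let `B` be any ball `a + t ^ m O`.  If `X ∩ B` is
contained in `D` balls `y + t ^ (m + h) O` then it is contained in `N` balls `y + t ^ (m + D) O`.
In other words, if `X ∩ B` has more than `N` classes modulo `t ^ (m + D)` then the number of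
its classes grows, it is larger than `D` modulo `t ^ (m + h)`, where `h` does not depend on the
parameters and on the ball.

Equivalently, a finite set in the closure of a definable family (a finite limit, in the
Hausdorff metric, of the traces of the sets of the family on a ball) has at most `N` elements.
If `X ∩ B` is itself finite this is uniform finiteness.

Proof.  The relations on a finite set `S` are coded by elements of `K`, by the start results, and
the same codes are correct for the sets which are near `S`. So if there are finite limits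
with arbitrarily many elements, a number `n` can be represented by parameters `r` for which the set
with the parameters `r` has `n` classes modulo `c = r_0`, and such that there are sets of the family
with the same number of classes modulo `c`, by a coded bijection, and with classes of arbitrarily
small diameter.  By compactness these sets have a finite limit with `n` elements, and sets near
enough to the limits of two or more such families can be compared, added and multiplied by
coded relations.  This gives an interpretation of true arithmetic in tuples of elements of `K`.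
-/

set_option autoImplicit false

namespace Pool.Agent.Results.MP_db9079_lc.UniformGrowth

open Pool.Agent.Y924.EL
open Pool.Agent.Results.MP_db9079_lc.UniformFiniteness
open Function

variable {p : ℕ} [Fact p.Prime]

/-- the ball `a + t ^ m F_p[[t]]` -/
def Ball (a : LaurentSeries (ZMod p)) (m : ℤ) : Set (LaurentSeries (ZMod p)) :=
  {x | ∀ k < m, x.coeff k = a.coeff k}

/-- the set `S` is contained in the union of at most `C` cosets of `t ^ r F_p[[t]]` -/
def Few (C : ℕ) (r : ℤ) (S : Set (LaurentSeries (ZMod p))) : Prop :=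
  ∃ G : Finset (LaurentSeries (ZMod p)), G.card ≤ C ∧
    ∀ x ∈ S, ∃ y ∈ G, ∀ k < r, x.coeff k = y.coeff k

/-- the sets `X` and `S` are equal modulo `t ^ r F_p[[t]]` -/
def SameMod (r : ℤ) (X S : Set (LaurentSeries (ZMod p))) : Prop :=
  (∀ x ∈ X, ∃ y ∈ S, ∀ k < r, x.coeff k = y.coeff k) ∧
    ∀ y ∈ S, ∃ x ∈ X, ∀ k < r, x.coeff k = y.coeff k

open Pool.Agent.K9h38.VG Pool.Agent.K9h38.VL

/-- the sets of the family, after the affine map `x ↦ a + c x` -/
def Aff (P : Set (LaurentSeries (ZMod p))) (φ : Fm) (x : LaurentSeries (ZMod p))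
    (u : ℕ → LaurentSeries (ZMod p)) : Prop :=
  Sat P φ (update (fun n => u (n + 2)) 0 (u 0 + u 1 * x))

theorem df_Aff (P : Set (LaurentSeries (ZMod p))) (φ : Fm) :
    Df P (fun w => Aff P φ (w 0) (fun n => w (n + 1))) := by
  have h0 : Df P (fun v => Sat P φ v) := ⟨φ, fun _ => Iff.rfl⟩
  refine (Df.comp h0 (F := cns (fun w => w 1 + w 2 * w 0) (fun n w => w (n + 4))) fun i => ?_).congr
    fun w => ?_
  · cases i with
    | zero => exact (DFn.var 1).add ((DFn.var 2).mul (DFn.var 0))
    | succ i => exact DFn.var _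
  · have : (update (fun n => w (n + 2 + 1)) 0 (w (0 + 1) + w (1 + 1) * w 0)) =
        fun i => cns (fun w : ℕ → LaurentSeries (ZMod p) => w 1 + w 2 * w 0)
          (fun n w => w (n + 4)) i w := by
      funext i
      cases i with
      | zero => simp [cns]
      | succ i =>
        rw [update_of_ne (by omega)]
        rfl
    unfold Aff
    rw [this]

theorem tp_cancel (m : ℤ) (x : LaurentSeries (ZMod p)) : tp m * (tp (-m) * x) = x := by
  rw [tp, tp, ← mul_assoc, HahnSeries.single_mul_single, add_neg_cancel, one_mul,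
    HahnSeries.single_zero_one, one_mul]

theorem le_scale (m r : ℤ) {x : LaurentSeries (ZMod p)} (h : Le (tp (m + r)) x) :
    Le (tp r) (tp (-m) * x) := by
  rw [le_tp] at h ⊢
  intro k hk
  rw [tp, HahnSeries.coeff_single_mul, one_mul]
  exact h _ (by omega)

theorem le_scale' (m r : ℤ) {x : LaurentSeries (ZMod p)} (h : Le (tp r) x) :
    Le (tp (m + r)) (tp m * x) := by
  rw [le_tp] at h ⊢
  intro k hk
  rw [tp, HahnSeries.coeff_single_mul, one_mul]
  exact h _ (by omega)

/-- coordinates on a ball -/
theorem few_iff (P : Set (LaurentSeries (ZMod p))) (φ : Fm) (v : ℕ → LaurentSeries (ZMod p))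
    (a : LaurentSeries (ZMod p)) (m : ℤ) (C : ℕ) (r : ℤ) :
    FewC C r {x | x ∈ Pool.Agent.Y924.UF.OO p ∧ Aff P φ x (cns a (cns (tp m) v))} ↔
      Few C (m + r) (Dfn p P φ v ∩ Ball a m) := by
  classical
  have hAff : ∀ x, Aff P φ x (cns a (cns (tp m) v)) ↔ a + tp m * x ∈ Dfn p P φ v := fun x => Iff.rfl
  have hball : ∀ x, x ∈ Ball a m ↔ tp (-m) * (x - a) ∈ Pool.Agent.Y924.UF.OO p := by
    intro x
    rw [Pool.Agent.Y155.UF.mem_OO]
    constructor
    · intro h n hn
      rw [tp, HahnSeries.coeff_single_mul, one_mul, HahnSeries.coeff_sub, h _ (by omega), sub_self]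
    · intro h k hk
      have h1 := h (k - m) (by omega)
      rw [tp, HahnSeries.coeff_single_mul, one_mul, sub_neg_eq_add, sub_add_cancel,
        HahnSeries.coeff_sub] at h1
      exact sub_eq_zero.1 h1
  constructor
  · rintro ⟨G, hG, h⟩
    refine ⟨G.image fun y => a + tp m * y, Finset.card_image_le.trans hG, fun x hx => ?_⟩
    have e1 : a + tp m * (tp (-m) * (x - a)) = x := by rw [tp_cancel]; ring
    obtain ⟨y, hy, hxy⟩ := h (tp (-m) * (x - a)) ⟨(hball x).1 hx.2, (hAff _).2 (by
      rw [e1]; exact hx.1)⟩
    refine ⟨_, Finset.mem_image_of_mem _ hy, le_tp_sub.1 ?_⟩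
    have h1 := le_scale' m r hxy
    have e2 : tp m * (tp (-m) * (x - a) - y) = x - (a + tp m * y) := by
      rw [mul_sub, tp_cancel]; ring
    rwa [e2] at h1
  · rintro ⟨G, hG, h⟩
    refine ⟨G.image fun y => tp (-m) * (y - a), Finset.card_image_le.trans hG, fun x hx => ?_⟩
    have e1 : tp (-m) * (a + tp m * x - a) = x := by
      rw [add_sub_cancel_left]
      have := tp_cancel (-m) x
      rwa [neg_neg] at this
    obtain ⟨y, hy, hxy⟩ := h (a + tp m * x) ⟨(hAff _).1 hx.2, (hball _).2 (by
      rw [e1]; exact hx.1)⟩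
    refine ⟨_, Finset.mem_image_of_mem _ hy, ?_⟩
    have h1 := le_scale m r (le_tp_sub.2 hxy)
    have e2 : tp (-m) * (a + tp m * x - y) = x - tp (-m) * (y - a) := by
      have e3 : a + tp m * x - y = (a + tp m * x - a) - (y - a) := by ring
      rw [e3, mul_sub, e1]
    rwa [e2] at h1

/-- a finite limit has few elements -/
theorem limit_card {X : ℕ → Set (LaurentSeries (ZMod p))} {S : Set (LaurentSeries (ZMod p))}
    (hS : S.Finite) (hX : ∀ h : ℕ, SameMod h (X h) S) {m : ℤ} {N : ℕ}
    (hN : ∀ D : ℕ, ∃ h : ℕ, ∀ k : ℕ, Few D (m + h) (X k) → Few N (m + D) (X k)) :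
    S.ncard ≤ N := by
  classical
  obtain ⟨h1, hsep⟩ := (ev_sep hS).exists
  obtain ⟨D, hD1, hD2⟩ : ∃ D : ℕ, S.ncard ≤ D ∧ (h1 : ℤ) ≤ m + D :=
    ⟨S.ncard + (h1 - m : ℤ).toNat, by omega, by
      have := Int.self_le_toNat (h1 - m : ℤ); push_cast; omega⟩
  obtain ⟨h, hh⟩ := hN D
  obtain ⟨k, hk1, hk2⟩ : ∃ k : ℕ, m + h ≤ (k : ℤ) ∧ m + D ≤ (k : ℤ) :=
    ⟨(m + h).toNat + (m + D).toNat, by
      have := Int.self_le_toNat (m + h); push_cast; omega, by
      have := Int.self_le_toNat (m + D); push_cast; omega⟩
  obtain ⟨a1, a2⟩ := hX k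
  obtain ⟨G, hG, hG2⟩ := hh k ⟨hS.toFinset, by
    rw [← Set.ncard_eq_toFinset_card _ hS]; exact hD1, fun x hx => by
      obtain ⟨y, hy, hxy⟩ := a1 x hx
      exact ⟨y, hS.mem_toFinset.2 hy, fun j hj => hxy j (by omega)⟩⟩
  have h3 : ∀ y : LaurentSeries (ZMod p), ∃ z, y ∈ S → z ∈ G ∧ ∀ j < m + D,
      y.coeff j = z.coeff j := by
    intro y
    by_cases hy : y ∈ S
    · obtain ⟨x, hx, hxy⟩ := a2 y hy
      obtain ⟨z, hz, hxz⟩ := hG2 x hx
      exact ⟨z, fun _ => ⟨hz, fun j hj => by rw [← hxy j (by omega), hxz j hj]⟩⟩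
    · exact ⟨0, fun h => absurd h hy⟩
  choose f hf using h3
  have h4 : S.ncard ≤ (G : Set (LaurentSeries (ZMod p))).ncard := by
    refine Set.ncard_le_ncard_of_injOn f (fun y hy => (hf y hy).1) ?_ G.finite_toSet
    intro y hy y' hy' hyy
    refine hsep y hy y' hy' (le_tp_sub.2 fun j hj => ?_)
    rw [(hf y hy).2 j (by omega), (hf y' hy').2 j (by omega), hyy]
  rw [Set.ncard_coe_finset] at h4
  exact h4.trans hG

theorem result (p : ℕ) [Fact p.Prime] :
    -- the field `F_p((t))` with the valuation ring, or with any other unary predicate `P`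
    ∀ P : Set (LaurentSeries (ZMod p)), Arith p P ∨ ∀ φ : Fm, ∃ N : ℕ,
      -- the numbers of classes of the sets grow uniformly if they are larger than `N`
      (∀ D : ℕ, ∃ h : ℕ, ∀ (v : ℕ → LaurentSeries (ZMod p)) (a : LaurentSeries (ZMod p)) (m : ℤ),
        Few D (m + h) (Dfn p P φ v ∩ Ball a m) → Few N (m + D) (Dfn p P φ v ∩ Ball a m)) ∧
      -- finite limits of the family have at most `N` elements
      ∀ (a : LaurentSeries (ZMod p)) (m : ℤ) (S : Set (LaurentSeries (ZMod p))),
        (∀ h : ℕ, ∃ v : ℕ → LaurentSeries (ZMod p), SameMod h (Dfn p P φ v ∩ Ball a m) S) →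
        S.Finite → S.ncard ≤ N := by
  intro P
  by_cases h : ∀ φ : Fm, ∃ N : ℕ, ∀ D : ℕ, ∃ h : ℕ, ∀ u,
      FewC D h {x | x ∈ Pool.Agent.Y924.UF.OO p ∧ Aff P φ x u} →
        FewC N D {x | x ∈ Pool.Agent.Y924.UF.OO p ∧ Aff P φ x u}
  · right
    intro φ
    obtain ⟨N, hN⟩ := h φ
    have h1 : ∀ D : ℕ, ∃ h : ℕ, ∀ (v : ℕ → LaurentSeries (ZMod p)) (a : LaurentSeries (ZMod p))
        (m : ℤ), Few D (m + h) (Dfn p P φ v ∩ Ball a m) →
          Few N (m + D) (Dfn p P φ v ∩ Ball a m) := by
      intro D
      obtain ⟨h, hh⟩ := hN D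
      refine ⟨h, fun v a m hf => ?_⟩
      rw [← few_iff] at hf ⊢
      exact hh _ hf
    refine ⟨N, h1, fun a m S hlim hS => ?_⟩
    choose v hv using hlim
    refine limit_card (X := fun h => Dfn p P φ (v h) ∩ Ball a m) hS hv (m := m) fun D => ?_
    obtain ⟨h, hh⟩ := h1 D
    exact ⟨h, fun k => hh (v k) a m⟩
  · left
    push Not at h
    obtain ⟨φ, hφ⟩ := h
    rcases growth (df_Aff P φ) with h1 | ⟨N, h1⟩
    · exact h1
    · obtain ⟨D, hD⟩ := hφ N
      obtain ⟨h, hh⟩ := h1 D
      obtain ⟨u, hu1, hu2⟩ := hD h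
      exact absurd (hh u hu1) hu2

end Pool.Agent.Results.MP_db9079_lc.UniformGrowth
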