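import Pool.Agent.Results.MP_db9079_lc.UniformFiniteness
import Pool.Agent.K9h38.VL.Sq

/-!
# MP_db9079_lc: the value group of F_p((t)) and true arithmetic

Write `K` for the field `F_p((t))`, with the valuation or with any other unary predicate `P`.  The
value group `ℤ` of `K`, with its order and addition, is interpretable in the field, and its own
theory (Presburger arithmetic) is decidable.  It is not known which sets and relations between
elements of `ℤ` are definable in `K`, with parameters from `K`.  Here it is shown that, unless true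
arithmetic is reducible to the theory of `(K, P)`, this structure on the value group is far from
multiplication, also on bounded parts of the value group and in families.

Theorem: either true arithmetic is reducible to the theory of `(K, P)`, or for each formula `φ`

1. there are `a, m > 0` such that no set `X` defined by `φ` with parameters has the arithmetic
   progression `e, e + a, ..., e + m a` as the set of the values of its elements in the interval
   `[e, e + m a]`, whatever `e` is;
2. for each `d` there is an `H` such that no relation between values which is defined by `φ` with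
   parameters is, on an interval of length `H`, the graph of a polynomial function with a degree
   between `2` and `d`;
3. for each `B` there is a `k` such that for no increasing quadratic sequence `f` with second
   difference at most `B` (for example `f n = n ^ 2`, up to a translation) and no set `X` defined
   by `φ` with parameters the values of the elements of `X` in the interval `[f 0, f k]`
   are exactly `f 0, ..., f k`.

Proof.  In each case multiplication of natural numbers becomes definable in the value group, by
formulas of `K` which can check that a set or a function has the right form on an interval. The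
elements of the valuation ring represent their values. In the first case one defines
divisibility, and `a (a + 1)` as a least common multiple; in the second case a quadratic function with
second difference `c ≠ 0` gives `c x y` as a mixed difference, and `z = x y` if and only if
`c z 1 = c x y`; higher degrees are reduced to degree two by differences; in the third case
the gaps of the sequence are its indices, up to an affine function.
-/

set_option autoImplicit false

namespace Pool.Agent.Results.MP_db9079_lc.ValueGroupRelations

open Pool.Agent.Y924.EL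
open Pool.Agent.Results.MP_db9079_lc.UniformFiniteness
open Function

variable {p : ℕ} [Fact p.Prime]

/-- the values of the nonzero elements of `S` -/
def Values (S : Set (LaurentSeries (ZMod p))) : Set ℤ := {n | ∃ x ∈ S, x ≠ 0 ∧ x.order = n}

/-- the relation between values which is defined by the formula `φ` in the variables `x_0`, `x_1`,
with the parameters `v 2, v 3, ...` -/
def ValueRel (P : Set (LaurentSeries (ZMod p))) (φ : Fm) (v : ℕ → LaurentSeries (ZMod p))
    (i j : ℤ) : Prop :=
  ∃ x y : LaurentSeries (ZMod p), x ≠ 0 ∧ y ≠ 0 ∧ x.order = i ∧ y.order = j ∧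
    Sat P φ (update (update v 0 x) 1 y)

/-- on the interval `[m, m + H)` the relation is the graph of a polynomial function of degree `e`:
a function whose difference of order `e` is constant and not zero -/
def PolynomialOn (e H : ℕ) (m : ℤ) (V : ℤ → ℤ → Prop) : Prop :=
  ∃ f : ℤ → ℤ, (∀ i, m ≤ i → i < m + H → ∀ j, V i j ↔ j = f i) ∧
    ∃ c : ℤ, c ≠ 0 ∧ ∀ i, m ≤ i → i + e < m + H → (fwdDiff 1)^[e] f i = c

/-- for some quadratic sequence `f` with second difference `c`, which is increasing up to `f k`, the
elements of `V` in the interval `[f 0, f k]` are exactly `f 0, ..., f k` -/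
def QuadraticValues (c k : ℕ) (V : Set ℤ) : Prop :=
  ∃ f : ℕ → ℤ, (∀ n, f n + f (n + 2) = c + 2 * f (n + 1)) ∧ (∀ n, n < k → f n < f (n + 1)) ∧
    V ∩ Set.Icc (f 0) (f k) = {j | ∃ n, n ≤ k ∧ j = f n}

open Pool.Agent.K9h38.VG Pool.Agent.K9h38.VL

theorem d2_sat (P : Set (LaurentSeries (ZMod p))) (φ : Fm) :
    D2 P (fun x y u => Sat P φ (update (update u 0 x) 1 y)) := by
  have h0 : Df P (fun v => Sat P φ v) := ⟨φ, fun _ => Iff.rfl⟩
  refine (h0.sub (cns 0 (cns 1 fun n => n + 4))).congr fun w => ?_
  have : update (update (fun n => w (n + 2)) 0 (w 0)) 1 (w 1) =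
      fun n => w (cns 0 (cns 1 fun n => n + 4) n) := by
    funext n
    rcases n with _ | _ | n
    · rw [update_of_ne (by omega), update_self]
      rfl
    · rw [update_self]
      rfl
    · rw [update_of_ne (by omega), update_of_ne (by omega)]
      rfl
  beta_reduce
  rw [this]

theorem quad_mono {c k k' : ℕ} {V : Set ℤ} (hk : k ≤ k') (h : QuadraticValues c k' V) :
    QuadraticValues c k V := by
  obtain ⟨f, h1, h2, h3⟩ := h
  have hmono : ∀ a b : ℕ, a < b → b ≤ k' → f a < f b := by
    intro a b hab
    induction b with
    | zero => omega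
    | succ b ih =>
      intro hb
      rcases Nat.lt_succ_iff_lt_or_eq.1 hab with h4 | rfl
      · exact (ih h4 (by omega)).trans (h2 b (by omega))
      · exact h2 a (by omega)
  refine ⟨f, h1, fun n hn => h2 n (by omega), ?_⟩
  have hkk : f k ≤ f k' := by
    rcases Nat.lt_or_ge k k' with h4 | h4
    · exact (hmono k k' h4 le_rfl).le
    · have : k = k' := by omega
      rw [this]
  ext j
  constructor
  · rintro ⟨hj, hj1, hj2⟩
    have h4 : j ∈ V ∩ Set.Icc (f 0) (f k') := ⟨hj, hj1, hj2.trans hkk⟩
    rw [h3] at h4
    obtain ⟨n, hn, rfl⟩ := h4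
    refine ⟨n, ?_, rfl⟩
    by_contra hc
    have := hmono k n (by omega) hn
    omega
  · rintro ⟨n, hn, rfl⟩
    have h4 : f n ∈ V ∩ Set.Icc (f 0) (f k') := by
      rw [h3]
      exact ⟨n, by omega, rfl⟩
    refine ⟨h4.1, h4.2.1, ?_⟩
    rcases Nat.lt_or_ge n k with h5 | h5
    · exact (hmono n k h5 hk).le
    · have : n = k := by omega
      rw [this]

theorem poly_mono {e H H' : ℕ} {m : ℤ} {V : ℤ → ℤ → Prop} (hH : H ≤ H')
    (h : PolynomialOn e H' m V) : PolynomialOn e H m V := by
  obtain ⟨f, h1, c, hc, h2⟩ := h
  exact ⟨f, fun i hi hi2 => h1 i hi (by omega), c, hc, fun i hi hi2 => h2 i hi (by omega)⟩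

/-- a property which holds for one of finitely many indices and for each length holds for one
index and all lengths -/
theorem pigeon {Q : ℕ → ℕ → Prop} (hmono : ∀ c k k', k ≤ k' → Q c k' → Q c k) (B : ℕ)
    (h : ∀ k, ∃ c, c ≤ B ∧ Q c k) : ∃ c, c ≤ B ∧ ∀ k, Q c k := by
  by_contra hc
  push Not at hc
  choose g hg using hc
  obtain ⟨c, hc, hQ⟩ := h (∑ c ∈ (Finset.range (B + 1)).attach,
    g c.1 (by have := Finset.mem_range.1 c.2; omega))
  refine hg c hc (hmono c _ _ ?_ hQ)
  have h1 : (⟨c, Finset.mem_range.2 (by omega)⟩ : {x // x ∈ Finset.range (B + 1)}) ∈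
      (Finset.range (B + 1)).attach := Finset.mem_attach _ _
  exact Finset.single_le_sum (f := fun c : {x // x ∈ Finset.range (B + 1)} =>
    g c.1 (by have := Finset.mem_range.1 c.2; omega)) (fun _ _ => Nat.zero_le _) h1

theorem result (p : ℕ) [Fact p.Prime] :
    -- the field `F_p((t))` with the valuation ring, or with any other unary predicate `P`
    ∀ P : Set (LaurentSeries (ZMod p)), Arith p P ∨ ∀ φ : Fm,
      -- the sets of values in a definable family do not contain all arithmetic progressions
      (∃ a m : ℤ, 0 < a ∧ 0 < m ∧ ∀ (v : ℕ → LaurentSeries (ZMod p)) (e : ℤ),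
        Values (Dfn p P φ v) ∩ Set.Icc e (e + a * m) ≠
          {n | ∃ i : ℤ, 0 ≤ i ∧ i ≤ m ∧ n = e + a * i}) ∧
      -- definable functions between values are not polynomial of degree `2, ..., d` on long intervals
      (∀ d : ℕ, ∃ H : ℕ, ∀ (v : ℕ → LaurentSeries (ZMod p)) (m : ℤ) (e : ℕ), 2 ≤ e → e ≤ d →
        ¬ PolynomialOn e H m (ValueRel P φ v)) ∧
      -- definable sets of values are not given by quadratic sequences on long intervals
      (∀ B : ℕ, ∃ k : ℕ, ∀ (v : ℕ → LaurentSeries (ZMod p)) (c : ℕ), 0 < c → c ≤ B →
        ¬ QuadraticValues c k (Values (Dfn p P φ v))) := by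
  intro P
  by_cases hA : Arith p P
  · exact Or.inl hA
  refine Or.inr fun φ => ⟨?_, fun d => ?_, fun B => ?_⟩
  · by_contra hc
    push Not at hc
    refine hA (arith_of_vals φ fun a m ha hm => ?_)
    obtain ⟨v, e, h⟩ := hc a m ha hm
    exact ⟨v, e, h⟩
  · by_contra hc
    push Not at hc
    obtain ⟨e, he, h⟩ := pigeon (Q := fun e H => 2 ≤ e ∧ ∃ (v : ℕ → LaurentSeries (ZMod p)) (m : ℤ),
        PolynomialOn e H m (ValueRel P φ v)) (fun e k k' hk ⟨h1, v, m, h2⟩ =>
        ⟨h1, v, m, poly_mono hk h2⟩) d (fun H => by
      obtain ⟨v, m, e, h1, h2, h3⟩ := hc H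
      exact ⟨e, h2, h1, v, m, h3⟩)
    have he2 : 2 ≤ e := (h 0).1
    obtain ⟨e', rfl⟩ := Nat.exists_eq_add_of_le' he2
    refine hA (arith_of_poly e' (d2_sat P φ) fun H => ?_)
    obtain ⟨-, v, m, f, h1, c, hc, h2⟩ := h H
    exact ⟨v, m, f, c, hc, h1, h2⟩
  · by_contra hc
    push Not at hc
    obtain ⟨c, hcB, h⟩ := pigeon (Q := fun c k => 0 < c ∧ ∃ v : ℕ → LaurentSeries (ZMod p),
        QuadraticValues c k (Values (Dfn p P φ v))) (fun c k k' hk ⟨h1, v, h2⟩ =>
        ⟨h1, v, quad_mono hk h2⟩) B (fun k => by
      obtain ⟨v, c, h1, h2, h3⟩ := hc k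
      exact ⟨c, h2, h1, v, h3⟩)
    refine hA (arith_of_squares (R := fun z u => Sat P φ (update u 0 z)) (df_sat φ) c
      (h 0).1.ne' fun k => ?_)
    obtain ⟨-, v, f, h1, h2, h3⟩ := h k
    exact ⟨v, f, h2, h1, h3⟩

end Pool.Agent.Results.MP_db9079_lc.ValueGroupRelations
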